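import Mathlib

open Finset

namespace H11.Dense

variable {n : ℕ}

/-- `𝒫_n`: all nonempty subsets of `[n]`. -/
def PP (n : ℕ) : Finset (Finset (Fin n)) := univ.filter fun A => A.Nonempty

/-- Union-closed over `[n]`. -/
def UC (F : Finset (Finset (Fin n))) : Prop :=
  F ⊆ PP n ∧ univ ∈ F ∧ ∀ A ∈ F, ∀ B ∈ F, A ∪ B ∈ F

open Classical in
/-- The closure of a family. -/
noncomputable def clos (F : Finset (Finset (Fin n))) : Finset (Finset (Fin n)) :=
  (PP n).filter fun A => UC (insert A F)

/-- `F` has density exactly `k`. -/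
def IsDense (k : ℕ) (F : Finset (Finset (Fin n))) : Prop :=
  clos^[k] F = PP n ∧ ∀ j < k, clos^[j] F ≠ PP n

theorem two (F : Finset (Finset (Fin n))) (hF : UC F) (h : clos (clos F) = PP n)
    (A : Finset (Fin n)) (hA : A ∈ F) (A' : Finset (Fin n)) (hA' : A' ∈ F) (B : Finset (Fin n))
    (h1 : A ⊆ B) (h2 : A' ⊆ B) (hB : B ∉ F) : A = A' := by
  classical
  have sub : ∀ X ∈ F, X ∈ clos F := fun X hX =>
    mem_filter.2 ⟨hF.1 hX, by rwa [insert_eq_of_mem hX]⟩
  have up : ∀ X ∈ clos F, ∀ Y, X ⊆ Y → Y ∈ clos F := by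
    intro X hX Y hXY
    have hY : Y ∈ clos (clos F) := by
      rw [h]
      exact mem_filter.2 ⟨mem_univ _, (mem_filter.1 (mem_filter.1 hX).1).2.mono hXY⟩
    by_contra hn
    have hZ : ∀ Z, X ⊆ Z → Z ⊆ Y → Z ∈ clos F := by
      intro Z h1 h2
      by_cases e : Z \ X = ∅
      · rwa [← Subset.antisymm h1 (sdiff_eq_empty_iff_subset.1 e)]
      have hY : Z \ X ∈ clos (clos F) := by
        rw [h]
        exact mem_filter.2 ⟨mem_univ _, nonempty_iff_ne_empty.2 e⟩
      have := (mem_filter.1 hY).2.2.2 _ (mem_insert_self _ _) X (mem_insert_of_mem hX)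
      rw [sdiff_union_of_subset h1, mem_insert] at this
      rcases this with h3 | h3
      · obtain ⟨x, hx⟩ := (mem_filter.1 (mem_filter.1 hX).1).2
        have := h1 hx
        rw [h3] at this
        exact absurd hx (mem_sdiff.1 this).2
      · exact h3
    exact hn (hZ Y hXY Subset.rfl)
  have key : ∀ X ∈ F, ∀ X' ∈ F, X ⊆ B → X' ⊆ B → X' ⊆ X := by
    intro X hX X' hX' h1 h2
    have hY := up X (sub X hX) (X ∪ (B \ X')) subset_union_left
    have := (mem_filter.1 hY).2.2.2 _ (mem_insert_self _ _) X' (mem_insert_of_mem hX')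
    have e : X ∪ (B \ X') ∪ X' = B := by
      rw [union_assoc, sdiff_union_of_subset h2, union_eq_right.2 h1]
    rw [e, mem_insert] at this
    rcases this with h3 | h3
    · intro x hx
      have := h2 hx
      rw [h3] at this
      simpa [hx] using this
    · exact absurd h3 hB
  exact Subset.antisymm (key A' hA' A hA h2 h1) (key A hA A' hA' h1 h2)

/-- Cyclic distance from `i` to `x`. -/
def r (i x : Fin n) : ℕ := if i ≤ x then x - i else x + n - i

def seg (A : Finset (Fin n)) (i : Fin n) (t : ℕ) : Finset (Fin n) :=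
  A ∪ univ.filter fun x => r i x < t

theorem step (F : Finset (Finset (Fin n))) (hu : univ ∈ F) (A : Finset (Fin n)) (i : Fin n)
    (h : insert i A ∉ F) :
    ∃ j, j ≠ i ∧ j ∉ A ∧ seg A i (r i j) ∉ F ∧ insert j (seg A i (r i j)) ∈ F := by
  classical
  have ex : ∃ t, seg A i (t + 1) ∈ F := ⟨n, by
    convert hu
    ext x
    have : r i x ≤ n := by unfold r; split_ifs <;> omega
    simp [seg, this]⟩
  have h1 := Nat.find_spec ex
  have s1 : seg A i 1 = insert i A := by
    ext x
    have : r i x < 1 ↔ x = i := by unfold r; split_ifs <;> omega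
    simp only [seg, mem_union, mem_filter, mem_univ, true_and, this, mem_insert, or_comm]
  obtain ⟨t, ht⟩ : ∃ t, Nat.find ex = t + 1 := Nat.exists_eq_succ_of_ne_zero fun e => by
    rw [e, zero_add, s1] at h1; exact h h1
  have h2 := Nat.find_min ex (by omega : t < Nat.find ex)
  rw [ht] at h1
  obtain ⟨j, hj1, hj2⟩ : ∃ j, j ∈ seg A i (t + 1 + 1) ∧ j ∉ seg A i (t + 1) := by
    by_contra hn
    push Not at hn
    refine h2 ?_
    convert h1 using 1
    refine Subset.antisymm (union_subset_union_right fun x hx => ?_) hn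
    simp only [mem_filter, mem_univ, true_and] at hx ⊢
    omega
  simp only [seg, mem_union, mem_filter, mem_univ, true_and, not_or] at hj1 hj2
  have e : r i j = t + 1 := by
    rcases hj1 with h | h
    · exact absurd h hj2.1
    · omega
  refine ⟨j, ?_, hj2.1, e ▸ h2, ?_⟩
  · rintro rfl
    simp [r] at e
  · convert h1 using 1
    ext x
    have : r i x < t + 1 + 1 ↔ x = j ∨ r i x < t + 1 := by
      rw [← e]; unfold r; split_ifs <;> omega
    simp only [seg, mem_union, mem_filter, mem_univ, true_and, this, mem_insert, e]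
    tauto

end H11.Dense

open H11.Dense

theorem Pool.Agent.Results.MP_5b71d7_co.Frankl.result (n : ℕ) (F : Finset (Finset (Fin n)))
    (hF : UC F) (h : IsDense 2 F) :
    ∃ i : Fin n, F.card ≤ 2 * (F.filter fun A => i ∈ A).card := by
  classical
  have tw := two F hF h.1
  choose J hJ using step F hF.2.1
  let φ : Finset (Fin n) × Fin n → Finset (Fin n) × Fin n := fun p =>
    if h : insert p.2 p.1 ∈ F then (p.1, p.2) else (seg p.1 p.2 (r p.2 (J _ _ h)), J _ _ h)
  let P0 := (F ×ˢ (univ : Finset (Fin n))).filter fun p => p.2 ∉ p.1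
  let P1 := (F ×ˢ (univ : Finset (Fin n))).filter fun p => p.2 ∈ p.1
  have hφ : ∀ p ∈ P0, (φ p).2 ∉ (φ p).1 ∧ insert (φ p).2 (φ p).1 ∈ F := by
    intro p hp
    simp only [φ]
    split_ifs with h
    · exact ⟨(mem_filter.1 hp).2, h⟩
    · exact ⟨by simp [seg, (hJ _ _ h).2.1], (hJ _ _ h).2.2.2⟩
  have inj : Set.InjOn φ P0 := by
    rintro ⟨A, i⟩ hp ⟨A', i'⟩ hp' e
    simp only [P0, coe_filter, mem_product, mem_univ, and_true, Set.mem_setOf_eq] at hp hp'
    simp only [φ] at e
    split_ifs at e with h1 h2 h2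
    · exact e
    · have e1 : A = _ := (Prod.ext_iff.1 e).1
      exact absurd ((congrArg (· ∈ F) e1).mp hp.1) (hJ _ _ h2).2.2.1
    · have e1 : A' = _ := (Prod.ext_iff.1 e).1.symm
      exact absurd ((congrArg (· ∈ F) e1).mp hp'.1) (hJ _ _ h1).2.2.1
    · obtain ⟨e1, e2⟩ := Prod.ext_iff.1 e
      simp only at e1 e2
      have eA : A = A' := tw A hp.1 A' hp'.1 _ subset_union_left
        (by rw [show A ∪ _ = _ from e1]; exact subset_union_left) (hJ _ _ h1).2.2.1
      subst eA
      have n1 := (hJ _ _ h1).1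
      have n2 := (hJ _ _ h2).1
      rw [← e2] at e1 n2
      generalize J A i h1 = j at e1 n1 n2
      have a1 := congrArg (i ∈ ·) e1
      have a2 := congrArg (i' ∈ ·) e1
      simp only [seg, mem_union, mem_filter, mem_univ, true_and, hp.2, hp'.2, false_or,
        eq_iff_iff] at a1 a2
      congr 1
      unfold r at a1 a2
      split_ifs at a1 a2 <;> omega
  have c1 : P0.card ≤ P1.card := by
    refine card_le_card_of_injOn (fun p => (insert (φ p).2 (φ p).1, (φ p).2)) (fun p hp => ?_) ?_
    · simp [P1, (hφ p hp).2]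
    · intro p hp p' hp' e
      obtain ⟨e1, e2⟩ := Prod.ext_iff.1 e
      simp only at e1 e2
      refine inj hp hp' (Prod.ext ?_ e2)
      rw [← erase_insert (hφ p hp).1, e1, e2, erase_insert (hφ p' hp').1]
  have c2 : P1.card + P0.card = F.card * n := by
    rw [card_filter_add_card_filter_not]; simp
  have c3 : P1.card = ∑ i : Fin n, (F.filter fun A => i ∈ A).card := by
    simp only [P1, card_filter]
    rw [sum_product_right]
  by_contra hn
  push Not at hn
  have hne : (univ : Finset (Fin n)).Nonempty := (mem_filter.1 (hF.1 hF.2.1)).2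
  have := sum_lt_sum_of_nonempty hne fun i _ => hn i
  rw [← mul_sum, ← c3] at this
  simp only [sum_const, card_univ, Fintype.card_fin, smul_eq_mul, mul_comm n] at this
  omega
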